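import Pool.Agent.Helper784MS.Red
import Pool.Agent.Helper784MS.RedD
import Pool.Agent.Helper784MS.RedA
import Pool.Agent.Helper784MS.RedB
import Pool.Agent.Helper784MS.RedC
import Pool.Agent.Helper784MS.A2
import Pool.Agent.Helper784MS.V
import Pool.Agent.Helper784MS.K
import Pool.Agent.Helper784MS.H2

/-!
# A non-amenable group whose reduced group C*-algebra is matricially weakly semiprojective

The group `G = ⟨K, v⟩` (`TheG`) is generated by thirteen elements; `K` is generated by twelve elements `x i` of order 101
which form a system of small angle, it is infinite and perfect, `v K v⁻¹ ≤ K`, and `w v K v⁻¹ w⁻¹` commutes with `v K v⁻¹`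
for some `w` in `K`.

* Every asymptotic representation of `G` in matrices (operator norm) is asymptotically trivial on the `x i`.
* In the regular representation the Laplacian of the `x i` has a spectral gap and no kernel, so it is invertible in
  `C*_r(G)`; a `*`-homomorphism from `C*_r(G)` to `∏ M_{k n} / ⨁ M_{k n}` kills it, hence is zero.
-/

set_option autoImplicit false

open Filter Topology
open scoped ComplexOrder

namespace Pool.Agent.Results.MP_56ff7a_an.NonAmenableExample

open Pool.Agent.Helper784MS Pool.Agent.Helper784MS.Red Pool.Agent.H379R3.CS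

theorem specH : SpecH := specH_of (specA_of specA1) specV

/-- every `*`-homomorphism from `C*_r(G)` to `∏ M_{k n} / ⨁ M_{k n}` is zero -/
theorem zero_of (k : ℕ → ℕ)
    (φ : ∀ n, reducedCStar TheG → CStarMatrix (Fin (k n)) (Fin (k n)) ℂ) (hφ : IsAsympHom φ)
    (a : reducedCStar TheG) : Tendsto (fun n => ‖φ n a‖) atTop (𝓝 0) := by
  obtain ⟨w, hw⟩ := datG specK
  obtain ⟨-, b, hb⟩ := lap_gap hw (infinite_of_dat hw (0, 0) xG_ne)
  refine asymp_zero (by norm_num) hb hφ (fun i => ?_) a
  refine asymp_triv specH hw gen_top k (fun n g => φ n (regHom TheG g)) (fun g h => ?_)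
    (fun g => ?_) i
  · have := hφ.mul (regHom TheG g) (regHom TheG h)
    rwa [← map_mul] at this
  · have h1 : regHom TheG g⁻¹ = star (regHom TheG g) :=
      Subtype.ext (star_shift g).symm
    have := hφ.star (regHom TheG g)
    rwa [← h1] at this

theorem not_amenable : ¬ Amenable TheG := by
  obtain ⟨w, hw⟩ := datG specK
  obtain ⟨⟨κ, hκ, hgap⟩, -⟩ := lap_gap hw (infinite_of_dat hw (0, 0) xG_ne)
  have hp : 0 < 101 := by norm_num
  exact not_amenable_of_gap hp hκ hgap

theorem mws : MatriciallyWeaklySemiprojective (reducedCStar TheG) := by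
  intro k φ hφ
  refine ⟨fun _ => 0, fun a => ?_⟩
  refine (zero_of k φ hφ a).congr fun n => ?_
  rw [NonUnitalStarAlgHom.zero_apply, sub_zero]

theorem fg : Group.FG TheG := by
  rw [Group.fg_iff]
  exact ⟨_, gen_top, (Set.finite_range xG).insert vG⟩

/-- There is a finitely generated non-amenable group whose reduced group C*-algebra `A` is matricially weakly
semiprojective; in fact `A` has no non-zero `*`-homomorphism to `∏ M_{k n} / ⨁ M_{k n}`. -/
theorem result : ∃ (G : Type) (_ : Group G) (A : Type) (_ : CStarAlgebra A) (u : G →* A),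
    Countable G ∧ Group.FG G ∧ ¬ Amenable G ∧ IsReduced G A u ∧
    MatriciallyWeaklySemiprojective A ∧
    ∀ (k : ℕ → ℕ) (φ : ∀ n, A → CStarMatrix (Fin (k n)) (Fin (k n)) ℂ),
      IsAsympHom φ → ∀ a, Tendsto (fun n => ‖φ n a‖) atTop (𝓝 0) :=
  ⟨TheG, inferInstance, reducedCStar TheG, inferInstance, regHom TheG, countG, fg, not_amenable,
    isReduced TheG, mws, zero_of⟩

end Pool.Agent.Results.MP_56ff7a_an.NonAmenableExample
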